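import Pool.Agent.H176.DT.Stm6

/-!
# DT6-SORT: the telescoping simplex for real numbers in the unit interval
-/

set_option autoImplicit false

namespace Pool.Agent.H306.DT6

open Pool.Agent.H176.DT (S6_sort)

/-- telescoping sums -/
theorem tel {t : ℕ} (f : ℕ → ℤ) {p : ℕ} (hp : p ≤ t) :
    ∑ k : Fin (t + 1), (((if (k : ℕ) ≤ p then 1 else 0 : ℕ)) : ℤ) *
      (f ((k : ℕ) + 1) - f (k : ℕ)) = f (p + 1) - f 0 := by
  rw [Fin.sum_univ_eq_sum_range
    (fun k => (((if k ≤ p then 1 else 0 : ℕ)) : ℤ) * (f (k + 1) - f k)) (t + 1)]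
  rw [← Finset.sum_range_sub f (p + 1)]
  have hsub : Finset.range (p + 1) ⊆ Finset.range (t + 1) :=
    Finset.range_subset_range.2 (by omega)
  rw [← Finset.sum_subset hsub]
  · refine Finset.sum_congr rfl fun k hk => ?_
    rw [Finset.mem_range] at hk
    rw [if_pos (by omega)]
    push_cast
    ring
  · intro k _ hk
    rw [Finset.mem_range] at hk
    rw [if_neg (by omega)]
    push_cast
    ring

theorem tel' {t : ℕ} (f : ℕ → ℤ) :
    ∑ k : Fin (t + 1), (f ((k : ℕ) + 1) - f (k : ℕ)) = f (t + 1) - f 0 := by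
  rw [Fin.sum_univ_eq_sum_range (fun k => f (k + 1) - f k) (t + 1), Finset.sum_range_sub]

theorem sort6 : S6_sort := by
  intro t r hr hinj
  set σ : Equiv.Perm (Fin t) := Tuple.sort r with hσ
  have hmono : StrictMono (r ∘ σ) :=
    (Tuple.monotone_sort r).strictMono_of_injective (hinj.comp σ.injective)
  set wn : ℕ → ℤ := fun k => if k = t + 1 then 1 else 0 with hwn
  set wh : Fin t → ℕ → ℤ := fun j k => if (σ.symm j : ℕ) + 1 = k then 1 else 0 with hwh
  have wn0 : wn 0 = 0 := by
    rw [hwn]
    simp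
  have wh0 : ∀ j, wh j 0 = 0 := by
    intro j
    rw [hwh]
    simp
  have whl : ∀ j, wh j (t + 1) = 0 := by
    intro j
    simp only [hwh]
    rw [if_neg]
    have := (σ.symm j).2
    omega
  -- the values
  set val : ℕ → ℝ := fun m => (wn m : ℝ) + ∑ j, (wh j m : ℝ) * r j with hval
  have val0 : val 0 = 0 := by
    simp only [hval]
    rw [wn0]
    simp [wh0]
  have vall : val (t + 1) = 1 := by
    simp only [hval]
    simp [whl, hwn]
  have vals : ∀ i : Fin t, val ((i : ℕ) + 1) = r (σ i) := by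
    intro i
    simp only [hval]
    have h1 : wn ((i : ℕ) + 1) = 0 := by
      simp only [hwn]
      rw [if_neg]
      have := i.2
      omega
    rw [h1, Int.cast_zero, zero_add, Finset.sum_eq_single (σ i)]
    · simp only [hwh]
      rw [Equiv.symm_apply_apply, if_pos rfl]
      simp
    · intro b _ hb
      simp only [hwh]
      rw [if_neg]
      · simp
      · intro h
        apply hb
        have h2 : σ.symm b = i := Fin.ext (by omega)
        rw [← h2, Equiv.apply_symm_apply]
    · intro h
      exact absurd (Finset.mem_univ _) h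
  refine ⟨fun k => wn ((k : ℕ) + 1) - wn (k : ℕ), fun k j => wh j ((k : ℕ) + 1) - wh j (k : ℕ),
    fun k j => if (k : ℕ) ≤ (σ.symm j : ℕ) then 1 else 0, ?_, ?_, ?_, ?_, ?_, ?_⟩
  · intro k
    have e : (((wn ((k : ℕ) + 1) - wn (k : ℕ) : ℤ)) : ℝ) +
        ∑ j, (((wh j ((k : ℕ) + 1) - wh j (k : ℕ) : ℤ)) : ℝ) * r j =
        val ((k : ℕ) + 1) - val (k : ℕ) := by
      simp only [hval]
      push_cast
      rw [Finset.sum_congr rfl (fun j _ => sub_mul ((wh j ((k : ℕ) + 1) : ℤ) : ℝ)
        ((wh j (k : ℕ) : ℤ) : ℝ) (r j)), Finset.sum_sub_distrib]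
      ring
    rw [e, sub_pos]
    have hk := k.2
    rcases Nat.eq_zero_or_pos (k : ℕ) with h0 | h0
    · rw [h0, val0, zero_add]
      rcases Nat.eq_zero_or_pos t with ht | ht
      · have := vall
        rw [ht, zero_add] at this
        rw [this]
        exact one_pos
      · have := vals ⟨0, ht⟩
        simp only [zero_add] at this
        rw [this]
        exact (hr _).1
    · have hk1 : (k : ℕ) - 1 < t := by omega
      have e1 : (k : ℕ) = ((⟨(k : ℕ) - 1, hk1⟩ : Fin t) : ℕ) + 1 := by
        simp only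
        omega
      have e2 : val (k : ℕ) = r (σ ⟨(k : ℕ) - 1, hk1⟩) := by
        rw [← vals ⟨(k : ℕ) - 1, hk1⟩, ← e1]
      rw [e2]
      rcases Nat.lt_or_ge (k : ℕ) t with hkt | hkt
      · rw [vals ⟨(k : ℕ), hkt⟩]
        refine hmono ?_
        rw [Fin.mk_lt_mk]
        omega
      · have e3 : (k : ℕ) + 1 = t + 1 := by omega
        rw [e3, vall]
        exact (hr _).2
  · rw [tel' wn, wn0, sub_zero]
    simp [hwn]
  · intro j
    rw [tel' (wh j), wh0, whl, sub_zero]
  · intro k j
    simp only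
    split_ifs <;> omega
  · intro j
    have hj := (σ.symm j).2
    rw [tel wn (p := (σ.symm j : ℕ)) (by omega), wn0, sub_zero]
    simp only [hwn]
    rw [if_neg (by omega)]
  · intro j j'
    have hj := (σ.symm j).2
    rw [tel (wh j') (p := (σ.symm j : ℕ)) (by omega), wh0, sub_zero]
    simp only [hwh]
    by_cases h : j = j'
    · rw [if_pos (by rw [h]), if_pos h]
    · rw [if_neg, if_neg h]
      intro h1
      apply h
      have h2 : σ.symm j' = σ.symm j := Fin.ext (by omega)
      exact (σ.symm.injective h2).symm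

end Pool.Agent.H306.DT6
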